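import Pool.Agent.Helper57.BG.Basic

/-!
# A', G9: the bracket
-/

set_option autoImplicit false

open Finset Pool.Agent.Helper57.BG

namespace Pool.Agent.Helper87.AP9

theorem cop_of_dvd {m k : ℤ} {u l : ℕ} (hk : Int.gcd k u = 1) (h : (u : ℤ) ∣ m * l - k) :
    IsCoprime m (u : ℤ) ∧ IsCoprime (l : ℤ) (u : ℤ) := by
  have h1 : IsCoprime k (u : ℤ) := Int.isCoprime_iff_gcd_eq_one.2 hk
  obtain ⟨t, ht⟩ := h
  have h2 : IsCoprime (m * l) (u : ℤ) := by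
    have h3 : m * l = k + (u : ℤ) * t := by linarith
    rw [h3]
    exact IsCoprime.add_mul_left_left h1 t
  exact ⟨h2.of_mul_left_left, h2.of_mul_left_right⟩

theorem NN_zero {Y : ℝ} {k : ℤ} {g u l u' l' : ℕ} (hk : Int.gcd k g = 1) (hu : (g : ℤ) ∣ u) (hu' : (g : ℤ) ∣ u')
    (h : ¬ (g : ℤ) ∣ (l' : ℤ) - l) : NN Y k u l u' l' = 0 := by
  unfold NN
  have h1 : ∀ m : ℤ, (if (u : ℤ) ∣ m * l - k ∧ (u' : ℤ) ∣ m * l' - k then fj Y m else 0) = 0 := by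
    intro m
    rw [if_neg]
    rintro ⟨h2, h3⟩
    have h4 : (g : ℤ) ∣ m * l - k := hu.trans h2
    have h5 : (g : ℤ) ∣ m * l' - k := hu'.trans h3
    have h6 : (g : ℤ) ∣ m * ((l' : ℤ) - l) := by
      have h7 := dvd_sub h5 h4
      have h8 : m * (l' : ℤ) - k - (m * l - k) = m * ((l' : ℤ) - l) := by ring
      rwa [h8] at h7
    exact h ((cop_of_dvd hk h4).1.symm.dvd_of_dvd_mul_left h6)
  simp only [h1, tsum_zero]

theorem br0 (Y : ℝ) (k : ℤ) (q1 q2 l q2' l' : ℕ) (hk : Int.gcd k q1 = 1)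
    (h : ¬ (q1 : ℤ) ∣ (l' : ℤ) - l) : Br Y k q1 q2 l q2' l' = 0 := by
  unfold Br
  have hd : ∀ n : ℕ, (q1 : ℤ) ∣ ((q1 * n : ℕ) : ℤ) := fun n => by push_cast; exact dvd_mul_right _ _
  rw [NN_zero hk (hd _) (hd _) h, NN_zero hk (hd _) dvd_rfl h, NN_zero hk dvd_rfl (hd _) h, NN_zero hk dvd_rfl dvd_rfl h]
  ring

theorem NN_symm (Y : ℝ) (k : ℤ) (u l u' l' : ℕ) : NN Y k u' l' u l = NN Y k u l u' l' := by
  unfold NN
  refine tsum_congr fun m => ?_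
  simp only [and_comm]

/-- symmetry -/
theorem br_symm (Y : ℝ) (k : ℤ) (q1 q2 l q2' l' : ℕ) :
    Br Y k q1 q2' l' q2 l = Br Y k q1 q2 l q2' l' := by
  unfold Br
  rw [NN_symm Y k (q1 * q2) l (q1 * q2') l', NN_symm Y k q1 l (q1 * q2') l', NN_symm Y k (q1 * q2) l q1 l',
    NN_symm Y k q1 l q1 l', mul_comm (q2' : ℝ) (q2 : ℝ)]
  ring

/-- exact value of the Fejér sums in residue classes -/
def FJE : Prop := ∀ (Y : ℝ) (q : ℕ), 0 < q → (q : ℝ) ≤ Y → ∀ m0 : ℤ, HasSum (fun j : ℤ => fj Y (m0 + q * j)) (Y / q)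

/-- upper bound for the Fejér sums in residue classes -/
def FJL : Prop := ∀ (Y : ℝ), 0 < Y → ∀ q : ℕ, 0 < q → ∀ m0 : ℤ,
  Summable (fun j : ℤ => fj Y (m0 + q * j)) ∧ ∑' j : ℤ, fj Y (m0 + q * j) ≤ Y / q + 1

theorem fj_nn (Y m : ℝ) : 0 ≤ fj Y m := sq_nonneg _

theorem NN_nonneg (Y : ℝ) (k : ℤ) (u l u' l' : ℕ) : 0 ≤ NN Y k u l u' l' := by
  unfold NN
  refine tsum_nonneg fun m => ?_
  split_ifs
  · exact fj_nn _ _
  · exact le_rfl

open Classical in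
theorem NN_le {Y : ℝ} {k : ℤ} {u l u' l' : ℕ} (hu : 0 < u) (hu' : 0 < u') (hk : Int.gcd k u = 1) (hk' : Int.gcd k u' = 1)
    {B : ℝ} (hB : 0 ≤ B) (h : ∀ m0 : ℤ, Summable (fun j : ℤ => fj Y (m0 + (Nat.lcm u u' : ℕ) * j)) ∧
      ∑' j : ℤ, fj Y (m0 + (Nat.lcm u u' : ℕ) * j) ≤ B) : NN Y k u l u' l' ≤ B := by
  by_cases hex : ∃ m0 : ℤ, (u : ℤ) ∣ m0 * l - k ∧ (u' : ℤ) ∣ m0 * l' - k
  · obtain ⟨m0, h1, h2⟩ := hex
    set q : ℕ := Nat.lcm u u' with hq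
    have hq0 : 0 < q := Nat.lcm_pos hu hu'
    have hcl : ∀ m : ℤ, (u : ℤ) ∣ m * l - k ∧ (u' : ℤ) ∣ m * l' - k → (q : ℤ) ∣ m - m0 := by
      rintro m ⟨h3, h4⟩
      have h5 : (u : ℤ) ∣ m - m0 := by
        have h6 : (u : ℤ) ∣ (m - m0) * l := by
          have h7 := dvd_sub h3 h1
          have h8 : m * (l : ℤ) - k - (m0 * l - k) = (m - m0) * l := by ring
          rwa [h8] at h7
        exact (cop_of_dvd hk h3).2.symm.dvd_of_dvd_mul_right h6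
      have h9 : (u' : ℤ) ∣ m - m0 := by
        have h6 : (u' : ℤ) ∣ (m - m0) * l' := by
          have h7 := dvd_sub h4 h2
          have h8 : m * (l' : ℤ) - k - (m0 * l' - k) = (m - m0) * l' := by ring
          rwa [h8] at h7
        exact (cop_of_dvd hk' h4).2.symm.dvd_of_dvd_mul_right h6
      rw [Int.natCast_dvd] at h5 h9 ⊢
      exact Nat.lcm_dvd h5 h9
    set g : ℤ → ℝ := fun m => if (q : ℤ) ∣ m - m0 then fj Y m else 0 with hg
    have hinj : Function.Injective fun j : ℤ => m0 + (q : ℤ) * j := by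
      intro i j hij
      have h3 : (q : ℤ) * i = (q : ℤ) * j := by simpa using hij
      exact mul_left_cancel₀ (by exact_mod_cast hq0.ne') h3
    have hgc : g ∘ (fun j : ℤ => m0 + (q : ℤ) * j) = fun j : ℤ => fj Y (m0 + (q : ℕ) * j) := by
      ext j
      simp only [hg, Function.comp_apply]
      rw [if_pos (by rw [add_sub_cancel_left]; exact dvd_mul_right _ _)]
      push_cast
      rfl
    have hgr : ∀ m, m ∉ Set.range (fun j : ℤ => m0 + (q : ℤ) * j) → g m = 0 := by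
      intro m hm
      simp only [hg]
      rw [if_neg]
      rintro ⟨j, hj⟩
      exact hm ⟨j, by simp only; linarith⟩
    obtain ⟨hs, hle⟩ := h m0
    rw [← hgc] at hs hle
    have hs' : Summable g := (hinj.summable_iff hgr).1 hs
    have ht : ∑' j : ℤ, (g ∘ (fun j : ℤ => m0 + (q : ℤ) * j)) j = ∑' m, g m := hinj.tsum_eq fun m hm => by
      by_contra hcon
      exact hm (hgr m hcon)
    rw [ht] at hle
    refine le_trans ?_ hle
    unfold NN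
    have hcmp : ∀ m : ℤ, (if (u : ℤ) ∣ m * l - k ∧ (u' : ℤ) ∣ m * l' - k then fj Y m else 0) ≤ g m := by
      intro m
      split_ifs with h3
      · simp only [hg]
        rw [if_pos (hcl m h3)]
      · simp only [hg]
        split_ifs
        · exact fj_nn _ _
        · exact le_rfl
    refine Summable.tsum_le_tsum hcmp (Summable.of_nonneg_of_le (fun m => ?_) hcmp hs') hs'
    split_ifs
    · exact fj_nn _ _
    · exact le_rfl
  · have h1 : NN Y k u l u' l' = 0 := by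
      unfold NN
      have h2 : ∀ m : ℤ, (if (u : ℤ) ∣ m * l - k ∧ (u' : ℤ) ∣ m * l' - k then fj Y m else 0) = 0 := fun m =>
        if_neg fun h3 => hex ⟨m, h3⟩
      simp only [h2, tsum_zero]
    rw [h1]
    exact hB

theorem brB_of (hE : FJE) (hL : FJL) (Y : ℝ) (hY : 0 < Y) (k : ℤ) (q1 q2 l q2' l' : ℕ) (h1 : 0 < q1) (h2 : 0 < q2) (h2' : 0 < q2')
    (hk : Int.gcd k (q1 * q2 : ℕ) = 1) (hk' : Int.gcd k (q1 * q2' : ℕ) = 1)
    (hY1 : ((q1 * q2 : ℕ) : ℝ) ≤ Y) (hY2 : ((q1 * q2' : ℕ) : ℝ) ≤ Y) :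
    |Br Y k q1 q2 l q2' l'| ≤
      (if ((q1 * Nat.gcd q2 q2' : ℕ) : ℤ) ∣ (l' : ℤ) - l then
        Y * (Nat.gcd q2 q2' : ℕ) / ((q1 : ℝ) * q2 * q2') + 1 else 0) +
      (if (q1 : ℤ) ∣ (l' : ℤ) - l then 3 * (Y / ((q1 : ℝ) * q2 * q2')) else 0) := by
  have hq1 : (0 : ℝ) < q1 := by exact_mod_cast h1
  have hq2 : (0 : ℝ) < q2 := by exact_mod_cast h2
  have hq2' : (0 : ℝ) < q2' := by exact_mod_cast h2'
  have hk1 : Int.gcd k q1 = 1 := by
    have h3 : Int.gcd k q1 ∣ Int.gcd k (q1 * q2 : ℕ) := Int.gcd_dvd_gcd_of_dvd_right _ (by push_cast; exact dvd_mul_right _ _)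
    rw [hk] at h3
    exact Nat.dvd_one.1 h3
  have hY0 : (q1 : ℝ) ≤ Y := by
    refine le_trans ?_ hY1
    have : q1 ≤ q1 * q2 := Nat.le_mul_of_pos_right _ h2
    exact_mod_cast this
  have hEq : ∀ q : ℕ, 0 < q → (q : ℝ) ≤ Y → ∀ m0 : ℤ, Summable (fun j : ℤ => fj Y (m0 + (q : ℕ) * j)) ∧
      ∑' j : ℤ, fj Y (m0 + (q : ℕ) * j) ≤ Y / q := fun q hq hqY m0 =>
    ⟨(hE Y q hq hqY m0).summable, (hE Y q hq hqY m0).tsum_eq.le⟩
  by_cases hd : (q1 : ℤ) ∣ (l' : ℤ) - l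
  · rw [if_pos hd]
    -- the four sums
    have hN2 : NN Y k (q1 * q2) l q1 l' ≤ Y / ((q1 * q2 : ℕ) : ℝ) := by
      refine NN_le (by positivity) h1 hk hk1 (by positivity) ?_
      have h3 : Nat.lcm (q1 * q2) q1 = q1 * q2 := Nat.lcm_eq_left (dvd_mul_right _ _)
      rw [h3]
      exact hEq _ (by positivity) hY1
    have hN3 : NN Y k q1 l (q1 * q2') l' ≤ Y / ((q1 * q2' : ℕ) : ℝ) := by
      refine NN_le h1 (by positivity) hk1 hk' (by positivity) ?_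
      have h3 : Nat.lcm q1 (q1 * q2') = q1 * q2' := Nat.lcm_eq_right (dvd_mul_right _ _)
      rw [h3]
      exact hEq _ (by positivity) hY2
    have hN4 : NN Y k q1 l q1 l' ≤ Y / (q1 : ℝ) := by
      refine NN_le h1 h1 hk1 hk1 (by positivity) ?_
      rw [Nat.lcm_self]
      exact hEq _ h1 hY0
    have hN1 : NN Y k (q1 * q2) l (q1 * q2') l' ≤ (if ((q1 * Nat.gcd q2 q2' : ℕ) : ℤ) ∣ (l' : ℤ) - l then
        Y * (Nat.gcd q2 q2' : ℕ) / ((q1 : ℝ) * q2 * q2') + 1 else 0) := by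
      split_ifs with hg
      · refine NN_le (by positivity) (by positivity) hk hk' (by positivity) fun m0 => ?_
        have h3 := hL Y hY (Nat.lcm (q1 * q2) (q1 * q2')) (Nat.lcm_pos (by positivity) (by positivity)) m0
        refine ⟨h3.1, h3.2.trans (le_of_eq ?_)⟩
        have h4 : Nat.lcm (q1 * q2) (q1 * q2') = q1 * Nat.lcm q2 q2' := Nat.lcm_mul_left _ _ _
        have h5 : Nat.gcd q2 q2' * Nat.lcm q2 q2' = q2 * q2' := Nat.gcd_mul_lcm _ _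
        have h6 : ((Nat.gcd q2 q2' : ℕ) : ℝ) * (Nat.lcm q2 q2' : ℕ) = q2 * q2' := by exact_mod_cast h5
        have h7 : (0 : ℝ) < (Nat.lcm q2 q2' : ℕ) := by exact_mod_cast Nat.lcm_pos h2 h2'
        rw [h4]
        push_cast
        rw [mul_assoc (q1 : ℝ) (q2 : ℝ) (q2' : ℝ), ← h6]
        have h8 : (0 : ℝ) < (Nat.gcd q2 q2' : ℕ) := by exact_mod_cast Nat.gcd_pos_of_pos_left _ h2
        field_simp
      · have hdiv : ∀ a b : ℕ, ((q1 * Nat.gcd q2 q2' : ℕ) : ℤ) ∣ ((q1 * q2 : ℕ) : ℤ) ∧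
            ((q1 * Nat.gcd q2 q2' : ℕ) : ℤ) ∣ ((q1 * q2' : ℕ) : ℤ) := fun _ _ => by
          constructor
          · exact_mod_cast Nat.mul_dvd_mul_left q1 (Nat.gcd_dvd_left q2 q2')
          · exact_mod_cast Nat.mul_dvd_mul_left q1 (Nat.gcd_dvd_right q2 q2')
        have hkg : Int.gcd k ((q1 * Nat.gcd q2 q2' : ℕ) : ℤ) = 1 := by
          have h3 : Int.gcd k ((q1 * Nat.gcd q2 q2' : ℕ) : ℤ) ∣ Int.gcd k (q1 * q2 : ℕ) :=
            Int.gcd_dvd_gcd_of_dvd_right _ (hdiv 0 0).1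
          rw [hk] at h3
          exact Nat.dvd_one.1 h3
        rw [NN_zero hkg (hdiv 0 0).1 (hdiv 0 0).2 hg]
    have p1 := NN_nonneg Y k (q1 * q2) l (q1 * q2') l'
    have p2 := NN_nonneg Y k (q1 * q2) l q1 l'
    have p3 := NN_nonneg Y k q1 l (q1 * q2') l'
    have p4 := NN_nonneg Y k q1 l q1 l'
    have b2 : 1 / (q2' : ℝ) * NN Y k (q1 * q2) l q1 l' ≤ Y / ((q1 : ℝ) * q2 * q2') := by
      refine (mul_le_mul_of_nonneg_left hN2 (by positivity)).trans (le_of_eq ?_)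
      push_cast
      field_simp
    have b3 : 1 / (q2 : ℝ) * NN Y k q1 l (q1 * q2') l' ≤ Y / ((q1 : ℝ) * q2 * q2') := by
      refine (mul_le_mul_of_nonneg_left hN3 (by positivity)).trans (le_of_eq ?_)
      push_cast
      field_simp
    have b4 : 1 / ((q2 : ℝ) * q2') * NN Y k q1 l q1 l' ≤ Y / ((q1 : ℝ) * q2 * q2') := by
      refine (mul_le_mul_of_nonneg_left hN4 (by positivity)).trans (le_of_eq ?_)
      field_simp
    have c2 : 0 ≤ 1 / (q2' : ℝ) * NN Y k (q1 * q2) l q1 l' := by positivity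
    have c3 : 0 ≤ 1 / (q2 : ℝ) * NN Y k q1 l (q1 * q2') l' := by positivity
    have c4 : 0 ≤ 1 / ((q2 : ℝ) * q2') * NN Y k q1 l q1 l' := by positivity
    unfold Br
    rw [abs_le]
    constructor <;> linarith
  · rw [br0 Y k q1 q2 l q2' l' hk1 hd, abs_zero, if_neg hd, add_zero]
    split_ifs
    · positivity
    · exact le_rfl

end Pool.Agent.Helper87.AP9
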