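import Pool.Agent.Helper87.AP9.Bracket
import Pool.Agent.Helper57.BG.Stmts

/-!
# A', G9: the bracket, final statements
-/

set_option autoImplicit false

open Finset Pool.Agent.Helper57.BG

namespace Pool.Agent.Helper87.AP9

theorem stmt_br0 : Stmt_br0 := br0

theorem stmt_br_symm : Stmt_br_symm := br_symm

theorem stmt_brB (hE : Stmt_FJ_exact) (hL : Stmt_FJ_le) : Stmt_brB :=
  fun Y hY k q1 q2 l q2' l' h1 h2 h2' _ _ hk hk' hY1 hY2 =>
    brB_of (fun Y q hq hqY m0 => hE Y q hq hqY m0) (fun Y hY q hq m0 => hL Y hY q hq m0) Y hY k q1 q2 l q2' l' h1 h2 h2' hk hk' hY1 hY2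

end Pool.Agent.Helper87.AP9
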